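import Mathlib

namespace Pool.Agent.Results.MP_6d30b5_co.Counter

open Finset SimpleGraph

open Classical in
/-- The number of 3-element vertex sets inducing a connected subgraph. -/
noncomputable def s3 {n : ℕ} (G : SimpleGraph (Fin n)) : ℕ :=
  ((powersetCard 3 univ).filter fun S : Finset (Fin n) => (G.induce (S : Set (Fin n))).Connected).card

/-- The minimum of `s3` over graphs with `n` vertices and `e` edges. -/
noncomputable def m (n e : ℕ) : ℕ :=
  sInf {s | ∃ G : SimpleGraph (Fin n), G.edgeSet.ncard = e ∧ s3 G = s}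

open Classical in
theorem cherry {n : ℕ} (G : SimpleGraph (Fin n)) :
    ∑ v, ((G.degree v : ℤ) * G.degree v - G.degree v) + 2 * (univ.filter fun t : Fin n × Fin n × Fin n =>
      G.Adj t.1 t.2.1 ∧ G.Adj t.1 t.2.2 ∧ t.2.1 ≠ t.2.2 ∧ ¬ G.Adj t.2.1 t.2.2).card ≤ 6 * s3 G := by
  let C := univ.filter fun t : Fin n × Fin n × Fin n =>
    G.Adj t.1 t.2.1 ∧ G.Adj t.1 t.2.2 ∧ t.2.1 ≠ t.2.2
  let W : Fin n × Fin n × Fin n → ℤ := fun t => if G.Adj t.2.1 t.2.2 then 1 else 3
  have h1 : (C.card : ℤ) = ∑ v, ((G.degree v : ℤ) * G.degree v - G.degree v) := by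
    have : C = (univ.sigma fun v => (G.neighborFinset v).offDiag).map
        (Equiv.sigmaEquivProd _ _).toEmbedding := by
      ext ⟨a, b, c⟩; simp [C, mem_map_equiv]
    rw [this, card_map, card_sigma]
    push_cast
    refine sum_congr rfl fun v _ => ?_
    rw [offDiag_card, Nat.cast_sub (Nat.le_mul_self _)]; simp
  have h2 : ∑ t ∈ C, W t = C.card + 2 * (univ.filter fun t : Fin n × Fin n × Fin n =>
      G.Adj t.1 t.2.1 ∧ G.Adj t.1 t.2.2 ∧ t.2.1 ≠ t.2.2 ∧ ¬ G.Adj t.2.1 t.2.2).card := by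
    rw [sum_congr rfl (g := fun t => 1 + 2 * if ¬ G.Adj t.2.1 t.2.2 then 1 else 0)
      fun t _ => by simp only [W]; split_ifs <;> rfl, sum_add_distrib, ← mul_sum, sum_boole,
      filter_filter]
    simp [and_assoc]
  rw [← h1, ← h2, s3, ← sum_fiberwise_of_maps_to (g := fun t => {t.1, t.2.1, t.2.2})
    (t := (powersetCard 3 univ).filter fun S : Finset (Fin n) =>
      (G.induce (S : Set (Fin n))).Connected)]
  · rw [mul_comm, ← nsmul_eq_mul]
    refine sum_le_card_nsmul _ _ _ fun S hS => ?_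
    obtain ⟨x, y, z, a, b, c, rfl⟩ := card_eq_three.1 (mem_powersetCard.1 (mem_filter.1 hS).1).2
    have sub : (C.filter fun t => ({t.1, t.2.1, t.2.2} : Finset (Fin n)) = {x, y, z}) ⊆
        ({(x, y, z), (x, z, y), (y, x, z), (y, z, x), (z, x, y), (z, y, x)} : Finset _).filter
          fun t => G.Adj t.1 t.2.1 ∧ G.Adj t.1 t.2.2 := by
      rintro ⟨u, v, w⟩ ht
      obtain ⟨p, e⟩ := mem_filter.1 ht
      obtain ⟨p1, p2, p3⟩ := (mem_filter.1 p).2
      have q1 : u ∈ ({x, y, z} : Finset _) := e ▸ by simp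
      have q2 : v ∈ ({x, y, z} : Finset _) := e ▸ by simp
      have q3 : w ∈ ({x, y, z} : Finset _) := e ▸ by simp
      have r1 := p1.ne
      have r2 := p2.ne
      refine mem_filter.2 ⟨?_, p1, p2⟩
      simp only [mem_insert, mem_singleton] at q1 q2 q3
      rcases q1 with rfl | rfl | rfl <;> rcases q2 with rfl | rfl | rfl <;>
        rcases q3 with rfl | rfl | rfl <;> simp_all
    refine (sum_le_sum_of_subset_of_nonneg sub fun t _ _ => by
      simp only [W]; split_ifs <;> norm_num).trans ?_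
    rw [sum_filter]
    have := G.adj_comm y x
    have := G.adj_comm z x
    have := G.adj_comm z y
    rw [sum_insert (by simp [a, b, c]), sum_insert (by simp [a, b, c]), sum_insert (by simp [a, b, c]),
      sum_insert (by simp [a, c]), sum_pair (by simp [a])]
    by_cases G.Adj x y <;> by_cases G.Adj x z <;> by_cases G.Adj y z <;> simp_all [W]
  · rintro ⟨u, v, w⟩ ht
    obtain ⟨p1, p2, p3⟩ := (mem_filter.1 ht).2
    refine mem_filter.2 ⟨mem_powersetCard.2 ⟨subset_univ _,
      card_eq_three.2 ⟨u, v, w, p1.ne, p2.ne, p3, rfl⟩⟩, ?_⟩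
    refine (connected_iff_exists_forall_reachable _).2 ⟨⟨u, by simp⟩, fun ⟨x, hx⟩ => ?_⟩
    simp only [coe_insert, coe_singleton, Set.mem_insert_iff, Set.mem_singleton_iff] at hx
    rcases hx with rfl | rfl | rfl
    exacts [.refl _, Adj.reachable p1, Adj.reachable p2]

theorem low {n : ℕ} (hn : n = 35) (G : SimpleGraph (Fin n)) (h : G.edgeSet.ncard = 86) : 115 ≤ s3 G := by
  classical
  by_contra hc
  have c := cherry G
  have ds : ∑ v, (G.degree v : ℤ) = 172 := by
    have := G.sum_degrees_eq_twice_card_edges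
    rw [Set.ncard_eq_toFinset_card', ← edgeFinset] at h
    exact_mod_cast h ▸ this
  let Y : Fin n → ℤ := fun v => ((G.degree v : ℤ) - 4) * (G.degree v - 5)
  have Y0 : ∀ v, 0 ≤ Y v := fun v => by
    rcases le_or_gt (G.degree v : ℤ) 4 with a | a <;> simp only [Y] <;> nlinarith
  have e : ∑ v, ((G.degree v : ℤ) * G.degree v - G.degree v) = ∑ v, Y v + 676 := by
    rw [sum_congr rfl (g := fun v => Y v + (8 * G.degree v - 20)) fun v _ => by simp only [Y]; ring,
      sum_add_distrib, sum_sub_distrib, ← mul_sum, ds]; simp [hn]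
  generalize hO : (univ.filter fun t : Fin n × Fin n × Fin n =>
    G.Adj t.1 t.2.1 ∧ G.Adj t.1 t.2.2 ∧ t.2.1 ≠ t.2.2 ∧ ¬ G.Adj t.2.1 t.2.2) = O at c
  have mO : ∀ a b d, (a, b, d) ∈ O ↔ G.Adj a b ∧ G.Adj a d ∧ b ≠ d ∧ ¬ G.Adj b d := by
    simp [← hO]
  have k : ∑ v, Y v + 2 * O.card ≤ 8 := by omega
  rcases O.eq_empty_or_nonempty with z | ⟨⟨v, u, w⟩, z⟩
  · have cl : ∀ a b, G.Adj a b → G.degree a ≤ G.degree b := fun a b p => by
      have : insert a (G.neighborFinset a) ⊆ insert b (G.neighborFinset b) := fun x hx => by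
        have := mO a b x
        simp only [z, notMem_empty, false_iff, not_and, not_not, mem_insert, mem_neighborFinset] at *
        rcases hx with rfl | hx
        · exact Or.inr p.symm
        · exact or_iff_not_imp_left.2 fun q => this p hx (Ne.symm q)
      have := card_le_card this
      simpa using this
    have big : ∀ f : ℤ → ℤ, (∀ v, 0 ≤ f (G.degree v)) → ∀ a,
        (G.degree a + 1) * f (G.degree a) ≤ ∑ v, f (G.degree v) := fun f hf a => by
      refine le_trans (le_of_eq ?_) (sum_le_sum_of_subset_of_nonneg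
        (subset_univ (insert a (G.neighborFinset a))) fun v _ _ => hf v)
      rw [sum_congr rfl (g := fun _ => f (G.degree a)) fun x hx => by
        rcases mem_insert.1 hx with rfl | hx
        · rfl
        · have := (G.mem_neighborFinset _ _).1 hx
          rw [le_antisymm (cl _ _ this.symm) (cl _ _ this)]]
      simp
    have d5 : ∀ a, (G.degree a : ℤ) ≤ 5 := fun a => by
      have b : (G.degree a + 1) * Y a ≤ ∑ v, Y v := big (fun d => (d - 4) * (d - 5)) Y0 a
      by_contra q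
      have : 2 ≤ Y a := by simp only [Y]; nlinarith
      have : (0 : ℤ) ≤ O.card := by positivity
      nlinarith
    have s : ∑ v, (5 - (G.degree v : ℤ)) = 3 := by rw [sum_sub_distrib, ds]; simp [hn]
    obtain ⟨a, -, ha⟩ := exists_ne_zero_of_sum_ne_zero (s.trans_ne (by norm_num))
    have := big (fun d => 5 - d) (fun v => by have := d5 v; omega) a
    have := d5 a
    have : (0 : ℤ) ≤ G.degree a := by positivity
    have : (G.degree a : ℤ) ≤ 4 := by omega
    nlinarith
  · obtain ⟨p1, p2, p3, p4⟩ := (mO _ _ _).1 z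
    let P := O.filter fun t => (t.2.2 = v ∨ t.2.2 = w) ∧ t.2.1 ≠ v ∧ t.2.1 ≠ w
    have a1 : G.degree u ≤ P.card := by
      refine (card_le_card (t := P.image fun t => if t.2.1 = u then t.1 else t.2.1)
        fun x hx => mem_image.2 ?_).trans card_image_le
      have q := (G.mem_neighborFinset _ _).1 hx
      have q1 : x ≠ w := by rintro rfl; exact p4 q
      by_cases a : x = v
      · exact ⟨(v, u, w), mem_filter.2 ⟨z, by simp [p1.ne', p3]⟩, by simp [a]⟩
      by_cases b : G.Adj x v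
      · by_cases d : G.Adj x w
        · exact ⟨(x, u, w), mem_filter.2 ⟨(mO _ _ _).2 ⟨q.symm, d, p3, p4⟩,
            by simp [p1.ne', p3]⟩, by simp⟩
        · exact ⟨(v, x, w), mem_filter.2 ⟨(mO _ _ _).2 ⟨b.symm, p2, q1, d⟩,
            by simp [a, q1]⟩, by simp [q.ne']⟩
      · exact ⟨(u, x, v), mem_filter.2 ⟨(mO _ _ _).2 ⟨q, p1.symm, a, b⟩,
          by simp [a, q1]⟩, by simp [q.ne']⟩
    have a2 : P.card ≤ (O \ P).card :=
      card_le_card_of_injOn (fun t => (t.1, t.2.2, t.2.1)) (fun ⟨a, b, d⟩ ht => by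
        obtain ⟨r, r'⟩ := mem_filter.1 ht
        obtain ⟨r1, r2, r3, r4⟩ := (mO _ _ _).1 r
        refine mem_sdiff.2 ⟨(mO _ _ _).2 ⟨r2, r1, r3.symm, fun i => r4 i.symm⟩, fun i => ?_⟩
        have := (mem_filter.1 i).2
        tauto) fun ⟨a, b, d⟩ _ ⟨a', b', d'⟩ _ i => by simp_all
    have a3 : (O \ P).card + P.card = O.card := card_sdiff_add_card_eq_card (filter_subset _ O)
    have a4 := single_le_sum (fun v _ => Y0 v) (mem_univ u)
    have a5 : 0 < G.degree u := p1.symm.degree_pos_left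
    have a6 : (2 * G.degree u : ℤ) ≤ O.card := by omega
    have a7 : Y u + 4 * G.degree u ≤ 8 := by omega
    simp only [Y] at a7
    nlinarith [sq_nonneg (2 * (G.degree u : ℤ) - 5)]

def blk (v : Fin 35) : Fin 7 := ⟨min ((v.val + 1) / 5) 6, by omega⟩

def K : SimpleGraph (Fin 35) where
  Adj u v := u ≠ v ∧ blk u = blk v
  symm := ⟨fun _ _ h => ⟨h.1.symm, h.2.symm⟩⟩
  loopless := ⟨fun _ h => h.1 rfl⟩

def L : SimpleGraph (Fin 35) where
  Adj u v := u ≠ v ∧ (u.val < 2 ∨ v.val < 2 ∨ (u = 2 ∧ v.val < 22) ∨ (v = 2 ∧ u.val < 22))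
  symm := ⟨fun _ _ h => ⟨h.1.symm, by tauto⟩⟩
  loopless := ⟨fun _ h => h.1 rfl⟩

instance : DecidableRel K.Adj := fun _ _ => inferInstanceAs (Decidable (_ ∧ _))
instance : DecidableRel L.Adj := fun _ _ => inferInstanceAs (Decidable (_ ∧ _))

theorem edges {n : ℕ} (G : SimpleGraph (Fin n)) [DecidableRel G.Adj] (e : ℕ)
    (h : ∑ v, G.degree v = 2 * e) : G.edgeSet.ncard = e := by
  rw [G.sum_degrees_eq_twice_card_edges] at h
  rw [Set.ncard_eq_toFinset_card', ← edgeFinset]
  omega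

theorem up {n k : ℕ} (G : SimpleGraph (Fin n)) (f : Fin n → Fin k)
    (h : ∀ u v, G.Adj u v → f u = f v) :
    s3 G ≤ ∑ b, (univ.filter fun v => f v = b).card.choose 3 := by
  classical
  refine (card_le_card (t := univ.biUnion fun b => powersetCard 3 (univ.filter fun v => f v = b))
    fun S hS => ?_).trans (card_biUnion_le.trans ?_)
  · obtain ⟨p, q⟩ := mem_filter.1 hS
    obtain ⟨⟨x, hx⟩⟩ := q.nonempty
    refine mem_biUnion.2 ⟨f x, mem_univ _, mem_powersetCard.2 ⟨fun y hy => ?_,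
      (mem_powersetCard.1 p).2⟩⟩
    obtain ⟨W⟩ := q ⟨y, hy⟩ ⟨x, hx⟩
    have : ∀ a b (_ : (G.induce (S : Set (Fin n))).Walk a b), f a = f b := fun a b W => by
      induction W with
      | nil => rfl
      | cons z _ ih => exact (h _ _ z).trans ih
    exact mem_filter.2 ⟨mem_univ _, this _ _ W⟩
  · simp only [card_powersetCard, le_refl]

theorem m_le {n e : ℕ} (G : SimpleGraph (Fin n)) (h : G.edgeSet.ncard = e) :
    m n e ≤ s3 G ∧ ∃ H : SimpleGraph (Fin n), H.edgeSet.ncard = e ∧ s3 H = m n e :=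
  ⟨Nat.sInf_le ⟨G, h, rfl⟩, Nat.sInf_mem (s := {s | ∃ G : SimpleGraph (Fin n),
    G.edgeSet.ncard = e ∧ s3 G = s}) ⟨_, G, h, rfl⟩⟩

theorem result : m 35 71 + 40 < m 35 86 ∧
    ¬ ∀ p n e : ℕ, p * n < 2 * e → 2 * (e + (p + 2).choose 2) < (p + 1) * n →
      (m n (e + (p + 2).choose 2) : ℤ) - m n e = (p * (p + 1) * (p + 2) / 3 : ℕ) := by
  have h1 : m 35 71 ≤ 74 := (m_le K (edges K 71 (by decide +kernel))).1.trans
    ((up K blk fun _ _ h => h.2).trans (by decide +kernel))
  have h2 : 115 ≤ m 35 86 := by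
    obtain ⟨G, a, b⟩ := (m_le L (edges L 86 (by decide +kernel))).2
    exact (low rfl G a).trans b.le
  refine ⟨by omega, fun h => ?_⟩
  have := h 4 35 71 (by norm_num) (by decide)
  rw [show 71 + Nat.choose (4 + 2) 2 = 86 by decide] at this
  omega

end Pool.Agent.Results.MP_6d30b5_co.Counter
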